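import Pool.Agent.R865.MonoDefs
import Pool.Agent.R865.MonoB

/-!
# Corank one mono-germs with unexpected homology (MP_622402_ag, Q1)

For every `p ≥ 3` the cuspidal mono-germ `f(x) = (x², x³, 0, …, 0)` from `(ℂ, 0)` to `(ℂᵖ, 0)` is
`𝒜`-finite of corank one, and its deformation `f_t(x) = (x², x³ + t x, 0, …, 0)` has two distinct
points with the same image, although `d₂ = p - 2 (p - 1) < 0`. Hence the double point space
`D²(f_t)` consists of two points exchanged by the involution, and it gives a non-zero class in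
`H₁^Alt(D²(F), D²(f_t))`.
-/

set_option autoImplicit false

namespace Pool.Agent.Results.MP_622402_ag.CuspidalCurve

open Pool.Agent.R865.Mono

/-- For `n = 1` and every `p ≥ 3` (so that `p / (p - n)` is not an integer) there is an `𝒜`-finite
mono-germ `f : (ℂⁿ, 0) → (ℂᵖ, 0)` of corank one, a versal unfolding `F` of `f` and a deformation
`f_t = F(·, h t)` of `f` induced from `F` which has unexpected homology. -/
theorem result : ∀ p : ℕ, 3 ≤ p → ¬ (p - 1 ∣ p) ∧
    ∃ f : (Fin 1 → ℂ) → (Fin p → ℂ), AnalyticAt ℂ f 0 ∧ f 0 = 0 ∧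
      Module.finrank ℂ (LinearMap.range (fderiv ℂ f 0).toLinearMap) = 1 - 1 ∧ AFinite f ∧
      ∃ (d : ℕ) (F : (Fin 1 → ℂ) → (Fin d → ℂ) → (Fin p → ℂ)), IsVersalUnfolding f F ∧
        ∃ h : ℂ → (Fin d → ℂ), AnalyticAt ℂ h 0 ∧ h 0 = 0 ∧ HasUnexpectedHomology F h := by
  intro p hp
  obtain ⟨q, rfl⟩ : ∃ q, p = q + 2 := ⟨p - 2, by omega⟩
  refine ⟨?_, cusp q, cusp_analytic q, ?_, ?_, afinite q, q + 2, unf q, versal q, curve q, ?_, ?_,
    unexpected q (by omega)⟩
  · rintro ⟨c, hc⟩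
    have h1 : q + 2 - 1 = q + 1 := by omega
    rw [h1] at hc
    rcases Nat.lt_or_ge c 2 with h | h
    · interval_cases c <;> omega
    · have := Nat.mul_le_mul_left (q + 1) h
      omega
  · funext j
    simp [cusp]
  · have h0 : fderiv ℂ (cusp q) 0 = 0 := by
      have hp : HasFDerivAt (fun x : Fin 1 → ℂ => x 0)
          (ContinuousLinearMap.proj (R := ℂ) (φ := fun _ : Fin 1 => ℂ) 0) 0 :=
        (ContinuousLinearMap.proj (R := ℂ) (φ := fun _ : Fin 1 => ℂ) 0).hasFDerivAt
      have h2 : HasFDerivAt (fun x : Fin 1 → ℂ => (x 0) ^ 2 • (Pi.single 0 1 : Fin (q + 2) → ℂ))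
          _ 0 := (hp.pow 2).smul_const _
      have h3 : HasFDerivAt (fun x : Fin 1 → ℂ => (x 0) ^ 3 • (Pi.single 1 1 : Fin (q + 2) → ℂ))
          _ 0 := (hp.pow 3).smul_const _
      have h4 : HasFDerivAt (cusp q) _ 0 := h2.add h3
      rw [h4.fderiv]
      ext x j
      simp
    rw [h0]
    simp
  · have : AnalyticAt ℂ (fun t : ℂ => t • (Pi.single 1 1 : Fin (q + 2) → ℂ)) 0 :=
      analyticAt_id.smul analyticAt_const
    exact this
  · simp [curve]

end Pool.Agent.Results.MP_622402_ag.CuspidalCurve
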